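import Mathlib

set_option autoImplicit false

namespace Pool.Agent.Results.MP_f73150_nt.Disproof

open Finset

/-- `S` (a finite set, listed in increasing order as `a_1 < ⋯ < a_l`) is a complete sequence in the
interval `(m, m + k]`: its elements lie in the interval, they are pairwise coprime, and every integer of the
interval has a common factor greater than `1` with some element of `S`. -/
def Complete (m k : ℕ) (S : Finset ℕ) : Prop :=
  S ⊆ Finset.Ioc m (m + k) ∧
  (∀ a ∈ S, ∀ b ∈ S, a ≠ b → Nat.gcd a b = 1) ∧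
  (∀ n, m < n → n ≤ m + k → ∃ a ∈ S, 1 < Nat.gcd n a)

/-- the set of all lengths of complete sequences in intervals `(m, m + k]`, `m ≥ 0`. Its maximum is
`max_m F(m, k)`. -/
def lengths (k : ℕ) : Set ℕ := {l | ∃ m : ℕ, ∃ S : Finset ℕ, Complete m k S ∧ S.card = l}

lemma pi_eq (k : ℕ) (hk : 4 ≤ k) (h1 : ¬ (k - 1).Prime) (h2 : ¬ k.Prime) :
    ((range (k - 1)).filter Nat.Prime).card = Nat.primeCounting k := by
  rw [Nat.primeCounting, Nat.primeCounting', ← Nat.count_eq_card_filter_range]
  obtain ⟨j, rfl⟩ : ∃ j, k = j + 1 := ⟨k - 1, by omega⟩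
  rw [Nat.add_sub_cancel] at h1 ⊢
  rw [Nat.count_succ, Nat.count_succ, if_neg h1, if_neg h2, Nat.add_zero]

theorem main (k : ℕ) (hk : 4 ≤ k) (h1 : ¬ (k - 1).Prime) (h2 : ¬ k.Prime) :
    ∃ m : ℕ, ∃ S : Finset ℕ, Complete m k S ∧ S.card = Nat.primeCounting k + 2 := by
  set N := k.factorial with hN
  have hN24 : 24 ≤ N := by
    have : (4).factorial ≤ k.factorial := Nat.factorial_le hk
    simpa [Nat.factorial] using this
  set P := (range (k - 1)).filter Nat.Prime with hP
  have hPm : ∀ p, p ∈ P ↔ p < k - 1 ∧ p.Prime := by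
    intro p; rw [hP, Finset.mem_filter, Finset.mem_range]
  set S : Finset ℕ := insert (N - 1) (insert (N + 1) (P.image (fun p => N + p))) with hS
  have hSm : ∀ a, a ∈ S ↔ a = N - 1 ∨ a = N + 1 ∨ ∃ p, p < k - 1 ∧ p.Prime ∧ a = N + p := by
    intro a
    simp only [hS, Finset.mem_insert, Finset.mem_image, hPm]
    constructor
    · rintro (h | h | ⟨p, hp, rfl⟩)
      · exact Or.inl h
      · exact Or.inr (Or.inl h)
      · exact Or.inr (Or.inr ⟨p, hp.1, hp.2, rfl⟩)
    · rintro (h | h | ⟨p, hp1, hp2, rfl⟩)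
      · exact Or.inl h
      · exact Or.inr (Or.inl h)
      · exact Or.inr (Or.inr ⟨p, ⟨hp1, hp2⟩, rfl⟩)
  refine ⟨N - 2, S, ⟨?_, ?_, ?_⟩, ?_⟩
  · intro a ha
    rw [hSm] at ha
    rw [Finset.mem_Ioc]
    rcases ha with h | h | ⟨p, hp1, hp2, h⟩ <;> omega
  · -- pairwise coprime
    have key : ∀ a ∈ S, ∀ b ∈ S, a < b → Nat.gcd a b = 1 := by
      intro a ha b hb hab
      by_contra hg
      obtain ⟨q, hq, hqg⟩ := Nat.exists_prime_and_dvd hg
      have hqa : q ∣ a := hqg.trans (Nat.gcd_dvd_left _ _)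
      have hqb : q ∣ b := hqg.trans (Nat.gcd_dvd_right _ _)
      have hqd : q ∣ b - a := Nat.dvd_sub hqb hqa
      rw [hSm] at ha hb
      have hbk : b ≤ N + k - 2 := by
        rcases hb with h | h | ⟨p, hp1, hp2, h⟩ <;> omega
      have hak : N - 1 ≤ a := by
        rcases ha with h | h | ⟨p, hp1, hp2, h⟩ <;> omega
      have hqk : q ≤ k := (Nat.le_of_dvd (by omega) hqd).trans (by omega)
      have hqN : q ∣ N := Nat.dvd_factorial hq.pos hqk
      rcases ha with h | h | ⟨p, hp1, hp2, h⟩
      · have h3 : q ∣ N - a := Nat.dvd_sub hqN hqa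
        rw [h, show N - (N - 1) = 1 by omega] at h3
        exact hq.one_lt.ne' (Nat.dvd_one.1 h3)
      · have h3 : q ∣ a - N := Nat.dvd_sub hqa hqN
        rw [h, show N + 1 - N = 1 by omega] at h3
        exact hq.one_lt.ne' (Nat.dvd_one.1 h3)
      · have h3 : q ∣ a - N := Nat.dvd_sub hqa hqN
        rw [h, Nat.add_sub_cancel_left] at h3
        have h4 : q = p := (Nat.prime_dvd_prime_iff_eq hq hp2).1 h3
        have hp2' := hp2.two_le
        rcases hb with h' | h' | ⟨p', hp1', hp2', h'⟩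
        · omega
        · omega
        · have h5 : q ∣ b - N := Nat.dvd_sub hqb hqN
          rw [h', Nat.add_sub_cancel_left] at h5
          have h6 : q = p' := (Nat.prime_dvd_prime_iff_eq hq hp2').1 h5
          omega
    intro a ha b hb hab
    rcases lt_or_gt_of_ne hab with h | h
    · exact key a ha b hb h
    · rw [Nat.gcd_comm]; exact key b hb a ha h
  · -- completeness
    intro n hn1 hn2
    rcases Nat.lt_or_ge n N with h | h
    · have h3 : n = N - 1 := by omega
      refine ⟨N - 1, (hSm _).2 (Or.inl rfl), ?_⟩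
      rw [h3, Nat.gcd_self]; omega
    · obtain ⟨j, rfl⟩ : ∃ j, n = N + j := ⟨n - N, by omega⟩
      have hjk : j ≤ k - 2 := by omega
      have aux : ∀ q, q.Prime → q < k - 1 → q ∣ j → ∃ a ∈ S, 1 < Nat.gcd (N + j) a := by
        intro q hq hqk hqj
        refine ⟨N + q, (hSm _).2 (Or.inr (Or.inr ⟨q, hqk, hq, rfl⟩)), ?_⟩
        have hqN : q ∣ N := Nat.dvd_factorial hq.pos (by omega)
        have h4 : q ∣ Nat.gcd (N + j) (N + q) := Nat.dvd_gcd (hqN.add hqj) (hqN.add dvd_rfl)
        have h5 : 0 < Nat.gcd (N + j) (N + q) := Nat.gcd_pos_of_pos_left _ (by omega)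
        exact lt_of_lt_of_le hq.one_lt (Nat.le_of_dvd h5 h4)
      rcases Nat.eq_zero_or_pos j with h0 | h0
      · exact aux 2 Nat.prime_two (by omega) (by rw [h0]; exact dvd_zero 2)
      · by_cases hj1 : j = 1
        · subst hj1
          refine ⟨N + 1, (hSm _).2 (Or.inr (Or.inl rfl)), ?_⟩
          rw [Nat.gcd_self]; omega
        · have hmf := Nat.minFac_le h0
          exact aux j.minFac (Nat.minFac_prime hj1) (by omega) (Nat.minFac_dvd j)
  · rw [hS, Finset.card_insert_of_notMem, Finset.card_insert_of_notMem, Finset.card_image_of_injective, ← pi_eq k hk h1 h2]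
    · intro a b hab
      exact Nat.add_left_cancel hab
    · intro h
      rw [Finset.mem_image] at h
      obtain ⟨p, hp, hp'⟩ := h
      have := ((hPm p).1 hp).2.two_le
      omega
    · intro h
      rw [Finset.mem_insert, Finset.mem_image] at h
      rcases h with h | ⟨p, hp, hp'⟩
      · omega
      · omega

/-- The formula `max_m F(m,k) = π(k) + 1` fails: (1) it fails for `k = 9`, where `(4, 13]` contains the complete
sequence `5, 7, 8, 9, 11, 13` of length `6 = π(9) + 2`; (2) for every `k ≥ 4` such that neither `k - 1` nor `k` is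
prime, some interval `(m, m+k]` contains a complete sequence with `π(k) + 2` terms; (3) hence it fails for
infinitely many `k`; (4) the statement asked about is false. -/
theorem result :
    (Complete 4 9 {5, 7, 8, 9, 11, 13} ∧ ({5, 7, 8, 9, 11, 13} : Finset ℕ).card = Nat.primeCounting 9 + 2) ∧
    (∀ k : ℕ, 4 ≤ k → ¬ (k - 1).Prime → ¬ k.Prime →
      ∃ m : ℕ, ∃ S : Finset ℕ, Complete m k S ∧ S.card = Nat.primeCounting k + 2) ∧
    (∀ K : ℕ, ∃ k : ℕ, K ≤ k ∧ ∃ m : ℕ, ∃ S : Finset ℕ, Complete m k S ∧ Nat.primeCounting k + 2 ≤ S.card) ∧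
    ¬ (∀ k : ℕ, 1 ≤ k → IsGreatest (lengths k) (Nat.primeCounting k + 1)) := by
  have h9 : Complete 4 9 {5, 7, 8, 9, 11, 13} ∧ ({5, 7, 8, 9, 11, 13} : Finset ℕ).card = Nat.primeCounting 9 + 2 := by
    refine ⟨⟨by decide, by decide, ?_⟩, by decide⟩
    intro n h1 h2
    interval_cases n <;> decide
  refine ⟨h9, main, ?_, ?_⟩
  · intro K
    set j := K + 3 with hj
    have hf : K ≤ j.factorial := by
      have := Nat.self_le_factorial j
      omega
    have hf6 : 6 ≤ j.factorial := by
      have : (3).factorial ≤ j.factorial := Nat.factorial_le (by omega)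
      simpa [Nat.factorial] using this
    have h2 : 2 ∣ j.factorial := Nat.dvd_factorial (by norm_num) (by omega)
    have h3 : 3 ∣ j.factorial := Nat.dvd_factorial (by norm_num) (by omega)
    obtain ⟨m, S, hS, hc⟩ := main (j.factorial + 3) (by omega) (by
      rw [show j.factorial + 3 - 1 = j.factorial + 2 by omega]
      intro hp
      have := (Nat.prime_dvd_prime_iff_eq Nat.prime_two hp).1 (h2.add dvd_rfl)
      omega) (by
      intro hp
      have := (Nat.prime_dvd_prime_iff_eq Nat.prime_three hp).1 (h3.add dvd_rfl)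
      omega)
    exact ⟨j.factorial + 3, by omega, m, S, hS, hc.ge⟩
  · intro h
    have h1 := (h 9 (by norm_num)).2 ⟨4, _, h9.1, rfl⟩
    rw [h9.2] at h1
    omega

end Pool.Agent.Results.MP_f73150_nt.Disproof
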